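import Pool.Agent.Helper41.LD6.Defs

/-!
# Project LD6, block TTA: the functions `A₀ x ^ n + c n` and their derivatives
-/

set_option autoImplicit false

namespace Pool.Agent.Helper94.LD6

open Pool.Agent.Helper41.LD6

variable {A₀ x y a δ : ℝ} {c : ℕ → ℝ} {n n' T : ℕ}

theorem Vf_pos (hA : 0 < A₀) (hn : 1 ≤ n) (hx : 0 < x) : 0 < Vf A₀ n x := by
  have h1 : (0 : ℝ) < n := by exact_mod_cast hn
  unfold Vf
  positivity

theorem Vf_nonneg (hA : 0 < A₀) (hx : 0 < x) : 0 ≤ Vf A₀ n x := by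
  unfold Vf
  positivity

theorem Vf_mono (hA : 0 < A₀) (hx : 0 < x) (hxy : x ≤ y) : Vf A₀ n x ≤ Vf A₀ n y := by
  unfold Vf
  have h1 : x ^ (n - 1) ≤ y ^ (n - 1) := pow_le_pow_left₀ hx.le hxy _
  exact mul_le_mul_of_nonneg_left h1 (by positivity)

theorem Vf_step (hA : 0 < A₀) (hx : 0 < x) (hnn : n ≤ n') : Vf A₀ n x * x ^ (n' - n) ≤ Vf A₀ n' x := by
  unfold Vf
  rcases Nat.eq_zero_or_pos n with h0 | h0
  · subst h0
    have : (0 : ℝ) ≤ A₀ * n' * x ^ (n' - 1) := by positivity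
    simpa using this
  · have e1 : x ^ (n' - 1) = x ^ (n - 1) * x ^ (n' - n) := by
      rw [← pow_add]; congr 1; omega
    have h2 : (n : ℝ) ≤ n' := by exact_mod_cast hnn
    rw [e1]
    have h3 : A₀ * (n : ℝ) ≤ A₀ * n' := mul_le_mul_of_nonneg_left h2 hA.le
    calc A₀ * (n : ℝ) * x ^ (n - 1) * x ^ (n' - n) = (A₀ * (n : ℝ)) * (x ^ (n - 1) * x ^ (n' - n)) := by ring
      _ ≤ (A₀ * (n' : ℝ)) * (x ^ (n - 1) * x ^ (n' - n)) := mul_le_mul_of_nonneg_right h3 (by positivity)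
      _ = _ := by ring

theorem Vf_step_le (hA : 0 < A₀) (hn : 1 ≤ n) (hx : 1 ≤ x) (k : ℕ) : Vf A₀ (n + k) x ≤ (2 * x) ^ k * Vf A₀ n x := by
  unfold Vf
  have hx0 : 0 < x := by linarith
  have e1 : x ^ (n + k - 1) = x ^ k * x ^ (n - 1) := by
    rw [← pow_add]; congr 1; omega
  have h2 : n + k ≤ 2 ^ k * n := by
    have h3 : k + 1 ≤ 2 ^ k := Nat.lt_two_pow_self
    nlinarith [Nat.mul_le_mul_right n h3, Nat.mul_le_mul_left k hn]
  have h4 : ((n + k : ℕ) : ℝ) ≤ 2 ^ k * n := by exact_mod_cast h2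
  rw [e1, mul_pow]
  calc A₀ * ((n + k : ℕ) : ℝ) * (x ^ k * x ^ (n - 1)) ≤ A₀ * (2 ^ k * n) * (x ^ k * x ^ (n - 1)) := by
        refine mul_le_mul_of_nonneg_right (mul_le_mul_of_nonneg_left h4 hA.le) (by positivity)
    _ = 2 ^ k * x ^ k * (A₀ * n * x ^ (n - 1)) := by ring

/-- small changes of the point -/
theorem Vf_near (hA : 0 < A₀) (ha : 1 ≤ a) (hax : a ≤ x) (hxa : x ≤ a + δ) (hn : n ≤ T) (hδ : (T : ℝ) * δ ≤ 1 / 2) :
    Vf A₀ n x ≤ 2 * Vf A₀ n a := by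
  have hδ0 : 0 ≤ δ := by linarith
  have h1 : x ≤ a * (1 + δ) := by nlinarith
  have h2 : x ^ (n - 1) ≤ a ^ (n - 1) * (1 + δ) ^ (n - 1) := by
    rw [← mul_pow]
    exact pow_le_pow_left₀ (by linarith) h1 _
  have h3 : (1 + δ) ^ (n - 1) ≤ 2 := by
    have h4 : (1 + δ) ^ (n - 1) ≤ Real.exp δ ^ (n - 1) := by
      refine pow_le_pow_left₀ (by linarith) ?_ _
      linarith [Real.add_one_le_exp δ]
    have h5 : Real.exp δ ^ (n - 1) = Real.exp (((n - 1 : ℕ) : ℝ) * δ) := (Real.exp_nat_mul δ (n - 1)).symm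
    have h6 : ((n - 1 : ℕ) : ℝ) * δ ≤ 1 / 2 := by
      have h7 : ((n - 1 : ℕ) : ℝ) ≤ T := by exact_mod_cast (Nat.sub_le n 1).trans hn
      exact (mul_le_mul_of_nonneg_right h7 hδ0).trans hδ
    have h8 : Real.exp (((n - 1 : ℕ) : ℝ) * δ) ≤ Real.exp (1 / 2) := Real.exp_le_exp.mpr h6
    have h9 : Real.exp (1 / 2) ≤ 2 := by
      have h10 : Real.exp (1 / 2) * Real.exp (1 / 2) = Real.exp 1 := by rw [← Real.exp_add]; norm_num
      have h11 : Real.exp 1 < 2.7182818286 := Real.exp_one_lt_d9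
      have h12 : 0 < Real.exp (1 / 2) := Real.exp_pos _
      nlinarith
    linarith
  unfold Vf
  have h4 : x ^ (n - 1) ≤ 2 * a ^ (n - 1) := by
    refine h2.trans ?_
    have : (0 : ℝ) ≤ a ^ (n - 1) := by positivity
    nlinarith
  calc A₀ * (n : ℝ) * x ^ (n - 1) ≤ A₀ * n * (2 * a ^ (n - 1)) := mul_le_mul_of_nonneg_left h4 (by positivity)
    _ = 2 * (A₀ * n * a ^ (n - 1)) := by ring

theorem Uf_deriv (A₀ : ℝ) (c : ℕ → ℝ) (n : ℕ) (x : ℝ) : HasDerivAt (Uf A₀ c n) (Vf A₀ n x) x := by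
  have h := ((hasDerivAt_pow n x).const_mul A₀).add_const (c n)
  have e : Vf A₀ n x = A₀ * ((n : ℝ) * x ^ (n - 1)) := by unfold Vf; ring
  rw [e]
  exact h

theorem Uf_cont (A₀ : ℝ) (c : ℕ → ℝ) (n : ℕ) : Continuous (Uf A₀ c n) := by
  unfold Uf
  fun_prop

theorem Uf_mono (hA : 0 < A₀) (hx : 0 ≤ x) (hxy : x ≤ y) : Uf A₀ c n x ≤ Uf A₀ c n y := by
  unfold Uf
  have h1 : x ^ n ≤ y ^ n := pow_le_pow_left₀ hx hxy _
  have h2 := mul_le_mul_of_nonneg_left h1 hA.le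
  linarith

/-- `U y - U x ≤ V y (y - x)` -/
theorem Uf_sub (hA : 0 < A₀) (hx : 0 ≤ x) (hxy : x ≤ y) : Uf A₀ c n y - Uf A₀ c n x ≤ Vf A₀ n y * (y - x) := by
  have hy : 0 ≤ y := hx.trans hxy
  have h1 : y ^ n - x ^ n = (∑ i ∈ Finset.range n, y ^ i * x ^ (n - 1 - i)) * (y - x) := (geom_sum₂_mul y x n).symm
  have h2 : ∑ i ∈ Finset.range n, y ^ i * x ^ (n - 1 - i) ≤ n * y ^ (n - 1) := by
    have h3 : ∀ i ∈ Finset.range n, y ^ i * x ^ (n - 1 - i) ≤ y ^ (n - 1) := by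
      intro i hi
      rw [Finset.mem_range] at hi
      have e1 : y ^ (n - 1) = y ^ i * y ^ (n - 1 - i) := by
        rw [← pow_add]; congr 1; omega
      rw [e1]
      exact mul_le_mul_of_nonneg_left (pow_le_pow_left₀ hx hxy _) (by positivity)
    refine (Finset.sum_le_sum h3).trans ?_
    simp
  have h4 : 0 ≤ y - x := by linarith
  have h5 : y ^ n - x ^ n ≤ n * y ^ (n - 1) * (y - x) := by
    rw [h1]
    exact mul_le_mul_of_nonneg_right h2 h4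
  have h6 := mul_le_mul_of_nonneg_left h5 hA.le
  unfold Uf Vf
  calc A₀ * y ^ n + c n - (A₀ * x ^ n + c n) = A₀ * (y ^ n - x ^ n) := by ring
    _ ≤ A₀ * (n * y ^ (n - 1) * (y - x)) := h6
    _ = A₀ * n * y ^ (n - 1) * (y - x) := by ring

/-- the same functions as in LD5 (`P = 1`) -/
theorem Vf_fp (hx : 0 < x) : Vf A₀ n x = Pool.Agent.Helper41.LD5.fp A₀ 1 n x := by
  unfold Vf Pool.Agent.Helper41.LD5.fp
  rcases Nat.eq_zero_or_pos n with h0 | h0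
  · subst h0; simp
  · have e1 : ((n : ℝ) / ((1 : ℕ) : ℝ) - 1) = ((n - 1 : ℕ) : ℝ) := by
      rw [Nat.cast_sub h0]; simp
    rw [e1, Real.rpow_natCast]
    simp

end Pool.Agent.Helper94.LD6
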