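import Pool.Agent.Helper41.LD6.Defs

/-!
# Project LD6, block H4: from the functionals with `q 0 ≠ 0` to all
-/

set_option autoImplicit false

namespace Pool.Agent.Helper94.LD6

open Pool.Agent.Helper41.LD6
open Pool.Agent.Helper41.LD (haar ind)

theorem ind_cases (k i : ℕ) (t : ℝ) : ind k i t = 0 ∨ ind k i t = 1 := by
  unfold ind
  split_ifs <;> simp

theorem hr_abs_le (n : ℕ) (y : ℝ) : |hr n y| ≤ 1 := by
  unfold hr
  split_ifs with h
  · simp
  · unfold haar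
    rcases ind_cases (Nat.log 2 n + 1) (2 * (n - 2 ^ Nat.log 2 n)) y with h1 | h1 <;>
      rcases ind_cases (Nat.log 2 n + 1) (2 * (n - 2 ^ Nat.log 2 n) + 1) y with h2 | h2 <;>
      rw [h1, h2] <;> norm_num

theorem prod_hr_abs_le {m : ℕ} (q : Fin m → ℕ) (y : Fin m → ℝ) : |∏ i, hr (q i) (y i)| ≤ 1 := by
  rw [Finset.abs_prod]
  exact Finset.prod_le_one (fun i _ => abs_nonneg _) fun i _ => hr_abs_le _ _

theorem hr_zero (y : ℝ) : hr 0 y = 1 := by simp [hr]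

/-- two ranges that differ by a shift -/
theorem sum_shift_le (f : ℕ → ℝ) (hf : ∀ n, |f n| ≤ 1) {n₁ n₂ : ℕ} (hn : n₁ ≤ n₂) (j : ℕ) :
    |∑ n ∈ Finset.Ico n₁ n₂, f (n + j) - ∑ n ∈ Finset.Ico n₁ n₂, f n| ≤ 2 * j := by
  rw [Finset.sum_Ico_add' f n₁ n₂ j]
  have e1 : ∑ n ∈ Finset.Ico n₁ (n₂ + j), f n = ∑ n ∈ Finset.Ico n₁ n₂, f n + ∑ n ∈ Finset.Ico n₂ (n₂ + j), f n :=
    (Finset.sum_Ico_consecutive f hn (Nat.le_add_right _ _)).symm
  have e2 : ∑ n ∈ Finset.Ico n₁ (n₂ + j), f n = ∑ n ∈ Finset.Ico n₁ (n₁ + j), f n + ∑ n ∈ Finset.Ico (n₁ + j) (n₂ + j), f n :=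
    (Finset.sum_Ico_consecutive f (Nat.le_add_right _ _) (by omega)).symm
  have e3 : ∑ n ∈ Finset.Ico (n₁ + j) (n₂ + j), f n - ∑ n ∈ Finset.Ico n₁ n₂, f n =
      ∑ n ∈ Finset.Ico n₂ (n₂ + j), f n - ∑ n ∈ Finset.Ico n₁ (n₁ + j), f n := by linarith
  rw [e3]
  have b : ∀ m, |∑ n ∈ Finset.Ico m (m + j), f n| ≤ j := by
    intro m
    refine (Finset.abs_sum_le_sum_abs _ _).trans ?_
    refine (Finset.sum_le_sum fun n _ => hf n).trans ?_
    simp
  have b1 := abs_le.mp (b n₁)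
  have b2 := abs_le.mp (b n₂)
  rw [abs_le]
  constructor <;> linarith [b1.1, b1.2, b2.1, b2.2]


/-! ### Block H4: from the functionals with `q 0 ≠ 0` to all; `i₀ =` the first `i` with `q i ≠ 0`, `q' i = q (i₀ + i)`, the ranges differ by `2 i₀` terms -/

theorem shift6 {d s K : ℕ} (hs : s ≤ d + 1) {n₁ n₂ : ℕ} (hn : n₁ ≤ n₂) (u : ℕ → ℝ) {Em : ℝ}
    (h : ∀ q ∈ Qs d K, dm q ≤ s → |∑ n ∈ Finset.Ico n₁ n₂, ∏ i : Fin (d + 1), hr (q i) (u (n + i))| ≤ Em)
    {q : Fin s → ℕ} (hq : ∀ i, q i < 2 ^ K) (hq0 : ∃ i, q i ≠ 0) :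
    |∑ n ∈ Finset.Ico n₁ n₂, ∏ i : Fin s, hr (q i) (u (n + i))| ≤ Em + 2 * d := by
  classical
  -- the sequence of all values
  set Q : ℕ → ℕ := fun i => if hi : i < s then q ⟨i, hi⟩ else 0 with hQ
  have hQq : ∀ i : Fin s, Q i = q i := fun i => by simp [hQ]
  have hQs : ∀ i, s ≤ i → Q i = 0 := fun i hi => by simp [hQ, not_lt.mpr hi]
  have hQK : ∀ i, Q i < 2 ^ K := by
    intro i
    by_cases hi : i < s
    · simp only [hQ, hi, dif_pos]; exact hq _
    · rw [hQs i (not_lt.mp hi)]; positivity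
  have hex : ∃ i, Q i ≠ 0 := by
    obtain ⟨i, hi⟩ := hq0
    exact ⟨i, by rw [hQq]; exact hi⟩
  set i₀ := Nat.find hex with hi₀
  have hi0 : Q i₀ ≠ 0 := Nat.find_spec hex
  have hlt : ∀ i < i₀, Q i = 0 := fun i hi => by
    have := Nat.find_min hex hi
    exact not_not.mp this
  have hi0s : i₀ < s := by
    by_contra hc
    exact hi0 (hQs _ (not_lt.mp hc))
  have hid : i₀ ≤ d := by omega
  -- the shifted family
  set q' : Fin (d + 1) → ℕ := fun i => Q (i₀ + i) with hq'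
  have hmem : q' ∈ Qs d K := by
    rw [Qs, Finset.mem_filter, Fintype.mem_piFinset]
    refine ⟨fun i => Finset.mem_range.mpr (hQK _), ?_⟩
    simpa [hq'] using hi0
  have hdm : dm q' ≤ s := by
    unfold dm
    refine Finset.sup_le fun i hi => ?_
    rw [Finset.mem_filter] at hi
    have h1 := hi.2
    have h2 : i₀ + (i : ℕ) < s := by
      by_contra hc
      exact h1 (hQs _ (not_lt.mp hc))
    omega
  have hmain := h q' hmem hdm
  -- the product of the shifted family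
  set P : ℕ → ℝ := fun n => ∏ i : Fin (d + 1), hr (q' i) (u (n + i)) with hP
  have hP1 : ∀ n, |P n| ≤ 1 := fun n => prod_hr_abs_le q' fun i => u (n + i)
  have key : ∀ n, ∏ i : Fin s, hr (q i) (u (n + i)) = P (n + i₀) := by
    intro n
    have e1 : ∏ i : Fin s, hr (q i) (u (n + i)) = ∏ i ∈ Finset.range s, hr (Q i) (u (n + i)) := by
      rw [← Fin.prod_univ_eq_prod_range (fun i => hr (Q i) (u (n + i))) s]
      exact Finset.prod_congr rfl fun i _ => by rw [hQq]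
    have e2 : P (n + i₀) = ∏ i ∈ Finset.range (d + 1), hr (Q (i₀ + i)) (u (n + (i₀ + i))) := by
      rw [← Fin.prod_univ_eq_prod_range (fun i => hr (Q (i₀ + i)) (u (n + (i₀ + i)))) (d + 1)]
      refine Finset.prod_congr rfl fun i _ => ?_
      simp only [hq', add_assoc]
    have e3 : ∏ i ∈ Finset.range s, hr (Q i) (u (n + i)) = ∏ i ∈ Finset.range (i₀ + (d + 1)), hr (Q i) (u (n + i)) := by
      refine Finset.prod_subset (Finset.range_subset_range.mpr (by omega)) fun i _ hi => ?_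
      rw [hQs i (not_lt.mp fun hc => hi (Finset.mem_range.mpr hc)), hr_zero]
    rw [e1, e2, e3, Finset.prod_range_add]
    rw [Finset.prod_eq_one fun i hi => by rw [hlt i (Finset.mem_range.mp hi), hr_zero], one_mul]
  rw [Finset.sum_congr rfl fun n _ => key n]
  have hsh := abs_le.mp (sum_shift_le P hP1 hn i₀)
  have hm := abs_le.mp hmain
  have hdr : (i₀ : ℝ) ≤ d := by exact_mod_cast hid
  rw [abs_le]
  constructor <;> linarith [hsh.1, hsh.2, hm.1, hm.2]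

end Pool.Agent.Helper94.LD6
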