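import Pool.Agent.Helper41.LD.Defs

/-!
Project LD6 (MP_9056e9_nt): boxes from products of Haar functions.
-/

set_option autoImplicit false

namespace Pool.Agent.Helper94.LD6

open Finset
open Pool.Agent.Helper41.LD (ind haar)

/-- the constant one (`k = 0`), and the Haar functions of level `k - 1` -/
noncomputable def hf (k i : ℕ) (t : ℝ) : ℝ := if k = 0 then 1 else haar (k - 1) i t

/-- the indicator of `[0, b 2^-K)` mod 1 -/
noncomputable def pre (K b : ℕ) (t : ℝ) : ℝ := if ⌊(2 : ℝ) ^ K * Int.fract t⌋ < (b : ℤ) then 1 else 0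

theorem floor_step (K : ℕ) (t : ℝ) :
    ⌊(2 : ℝ) ^ (K + 1) * Int.fract t⌋ = 2 * ⌊(2 : ℝ) ^ K * Int.fract t⌋ ∨
      ⌊(2 : ℝ) ^ (K + 1) * Int.fract t⌋ = 2 * ⌊(2 : ℝ) ^ K * Int.fract t⌋ + 1 := by
  set z : ℝ := (2 : ℝ) ^ K * Int.fract t with hz
  have h1 : (2 : ℝ) ^ (K + 1) * Int.fract t = 2 * z := by rw [hz]; ring
  rw [h1]
  have h2 := Int.floor_le z
  have h3 := Int.lt_floor_add_one z
  have h4 : 2 * ⌊z⌋ ≤ ⌊2 * z⌋ := by
    rw [Int.le_floor]
    push_cast
    linarith
  have h5 : ⌊2 * z⌋ < 2 * ⌊z⌋ + 2 := by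
    rw [Int.floor_lt]
    push_cast
    linarith
  omega

theorem ind_even (K b : ℕ) (t : ℝ) : ind (K + 1) (2 * b) t = (ind K b t + haar K b t) / 2 := by
  unfold haar ind
  rcases floor_step K t with h | h <;> rw [h] <;> push_cast
  · by_cases h1 : ⌊(2 : ℝ) ^ K * Int.fract t⌋ = (b : ℤ)
    · rw [if_pos (by omega), if_pos h1, if_neg (by omega)]
      norm_num
    · rw [if_neg (by omega), if_neg h1, if_neg (by omega)]
      norm_num
  · by_cases h1 : ⌊(2 : ℝ) ^ K * Int.fract t⌋ = (b : ℤ)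
    · rw [if_neg (by omega), if_pos h1, if_pos (by omega)]
      norm_num
    · rw [if_neg (by omega), if_neg h1, if_neg (by omega)]
      norm_num

theorem ind_odd (K b : ℕ) (t : ℝ) : ind (K + 1) (2 * b + 1) t = (ind K b t - haar K b t) / 2 := by
  unfold haar ind
  rcases floor_step K t with h | h <;> rw [h] <;> push_cast
  · by_cases h1 : ⌊(2 : ℝ) ^ K * Int.fract t⌋ = (b : ℤ)
    · rw [if_neg (by omega), if_pos h1, if_pos (by omega)]
      norm_num
    · rw [if_neg (by omega), if_neg h1, if_neg (by omega)]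
      norm_num
  · by_cases h1 : ⌊(2 : ℝ) ^ K * Int.fract t⌋ = (b : ℤ)
    · rw [if_pos (by omega), if_pos h1, if_neg (by omega)]
      norm_num
    · rw [if_neg (by omega), if_neg h1, if_neg (by omega)]
      norm_num

theorem pre_even (K b : ℕ) (t : ℝ) : pre (K + 1) (2 * b) t = pre K b t := by
  unfold pre
  have h := floor_step K t
  congr 1
  push_cast
  apply propext
  omega

theorem pre_odd (K b : ℕ) (t : ℝ) : pre (K + 1) (2 * b + 1) t = pre K b t + ind (K + 1) (2 * b) t := by
  unfold pre ind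
  have h := floor_step K t
  push_cast
  by_cases h1 : ⌊(2 : ℝ) ^ K * Int.fract t⌋ < (b : ℤ)
  · rw [if_pos (by omega), if_pos h1, if_neg (by omega)]
    norm_num
  · by_cases h2 : ⌊(2 : ℝ) ^ (K + 1) * Int.fract t⌋ = 2 * (b : ℤ)
    · rw [if_pos (by omega), if_neg h1, if_pos h2]
      norm_num
    · rw [if_neg (by omega), if_neg h1, if_neg h2]
      norm_num

/-- The expansion along the path of a cell. -/
theorem expand (K : ℕ) : ∀ b : ℕ, b < 2 ^ K → ∃ (c d : ℕ → ℝ) (i : ℕ → ℕ), c 0 = b / 2 ^ K ∧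
    d 0 = 1 / 2 ^ K ∧ (∀ k, |c k| + |d k| ≤ 1) ∧ (∀ k, i k < 2 ^ (k - 1)) ∧
    (∀ t, pre K b t = ∑ k ∈ range (K + 1), c k * hf k (i k) t) ∧
    ∀ t, ind K b t = ∑ k ∈ range (K + 1), d k * hf k (i k) t := by
  induction K with
  | zero =>
    intro b hb
    have hb0 : b = 0 := by simpa using hb
    subst hb0
    refine ⟨fun _ => 0, fun k => if k = 0 then 1 else 0, fun _ => 0, by simp, by simp, ?_, ?_, ?_, ?_⟩
    · intro k
      beta_reduce
      split_ifs <;> simp
    · intro k
      positivity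
    · intro t
      unfold pre
      have h : ¬ ⌊(2 : ℝ) ^ 0 * Int.fract t⌋ < ((0 : ℕ) : ℤ) := by
        rw [not_lt, pow_zero, one_mul]
        simp
      rw [if_neg h]
      simp
    · intro t
      unfold ind
      have h : ⌊(2 : ℝ) ^ 0 * Int.fract t⌋ = ((0 : ℕ) : ℤ) := by
        rw [pow_zero, one_mul]
        simp
      rw [if_pos h]
      simp [hf]
  | succ K ih =>
    intro b' hb'
    obtain ⟨c, d, i, hc0, hd0, hcd, hi, hp, hn⟩ := ih (b' / 2) (by
      rw [pow_succ] at hb'
      omega)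
    set b := b' / 2 with hb
    have hbK : b < 2 ^ K := by
      rw [pow_succ] at hb'
      omega
    have hiz : ∀ k ∈ range (K + 1), (if k = K + 1 then b else i k) = i k := by
      intro k hk
      rw [if_neg (by have := mem_range.1 hk; omega)]
    have hh : ∀ t, hf (K + 1) b t = haar K b t := fun t => by simp [hf]
    have hsum : ∀ (f : ℕ → ℝ) (v : ℝ) (t : ℝ),
        ∑ k ∈ range (K + 1 + 1), (if k = K + 1 then v else f k) *
          hf k (if k = K + 1 then b else i k) t =
        (∑ k ∈ range (K + 1), f k * hf k (i k) t) + v * haar K b t := by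
      intro f v t
      rw [sum_range_succ, if_pos rfl, if_pos rfl, hh]
      congr 1
      refine sum_congr rfl fun k hk => ?_
      rw [hiz k hk, if_neg (by have := mem_range.1 hk; omega)]
    have hib : ∀ k, (if k = K + 1 then b else i k) < 2 ^ (k - 1) := by
      intro k
      split_ifs with h
      · rw [h, Nat.add_sub_cancel]
        exact hbK
      · exact hi k
    rcases Nat.even_or_odd' b' with ⟨e, he | he⟩
    · have he' : b = e := by omega
      refine ⟨fun k => if k = K + 1 then 0 else c k, fun k => if k = K + 1 then 1 / 2 else d k / 2,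
        fun k => if k = K + 1 then b else i k, ?_, ?_, ?_, hib, ?_, ?_⟩
      · beta_reduce
        rw [if_neg (by omega), hc0, he, ← he']
        push_cast
        rw [pow_succ]
        field_simp
      · beta_reduce
        rw [if_neg (by omega), hd0, pow_succ]
        field_simp
      · intro k
        have h1 := hcd k
        have h2 := abs_nonneg (d k)
        beta_reduce
        split_ifs
        · norm_num [abs_of_pos]
        · rw [abs_div, abs_of_pos (by norm_num : (0 : ℝ) < 2)]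
          linarith
      · intro t
        rw [hsum c 0 t, zero_mul, add_zero, ← hp t, he, ← he', pre_even]
      · intro t
        rw [hsum (fun k => d k / 2) (1 / 2) t, he, ← he', ind_even, hn t, add_div, sum_div]
        congr 1
        · exact sum_congr rfl fun k _ => by ring
        · ring
    · have he' : b = e := by omega
      refine ⟨fun k => if k = K + 1 then 1 / 2 else c k + d k / 2,
        fun k => if k = K + 1 then -(1 / 2) else d k / 2,
        fun k => if k = K + 1 then b else i k, ?_, ?_, ?_, hib, ?_, ?_⟩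
      · beta_reduce
        rw [if_neg (by omega), hc0, hd0, he, ← he']
        push_cast
        rw [pow_succ]
        field_simp
      · beta_reduce
        rw [if_neg (by omega), hd0, pow_succ]
        field_simp
      · intro k
        have h1 := hcd k
        have h2 := abs_nonneg (d k)
        beta_reduce
        split_ifs
        · rw [abs_neg]
          norm_num [abs_of_pos]
        · have h3 := abs_add_le (c k) (d k / 2)
          rw [abs_div, abs_of_pos (by norm_num : (0 : ℝ) < 2)] at h3 ⊢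
          linarith
      · intro t
        rw [hsum (fun k => c k + d k / 2) (1 / 2) t, he, ← he', pre_odd, ind_even, hn t, hp t]
        simp_rw [add_mul]
        rw [sum_add_distrib, add_assoc]
        congr 1
        rw [add_div, sum_div]
        congr 1
        · exact sum_congr rfl fun k _ => by ring
        · ring
      · intro t
        rw [hsum (fun k => d k / 2) (-(1 / 2)) t, he, ← he', ind_odd, hn t, sub_div, sum_div,
          sub_eq_add_neg]
        congr 1
        · exact sum_congr rfl fun k _ => by ring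
        · ring

/-- The expansion of the indicator of `[0, b 2^-K)`. -/
theorem expand_pre (K b : ℕ) (hb : b ≤ 2 ^ K) : ∃ (c : ℕ → ℝ) (i : ℕ → ℕ), c 0 = b / 2 ^ K ∧
    (∀ k, |c k| ≤ 1) ∧ (∀ k, i k < 2 ^ (k - 1)) ∧
    ∀ t, pre K b t = ∑ k ∈ range (K + 1), c k * hf k (i k) t := by
  rcases hb.lt_or_eq with hb | hb
  · obtain ⟨c, d, i, h1, -, h2, h3, h4, -⟩ := expand K b hb
    exact ⟨c, i, h1, fun k => by have := h2 k; have := abs_nonneg (d k); linarith, h3, h4⟩
  · refine ⟨fun k => if k = 0 then 1 else 0, fun _ => 0, ?_, ?_, ?_, ?_⟩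
    · beta_reduce
      rw [if_pos rfl, hb]
      push_cast
      rw [div_self (by positivity)]
    · intro k
      beta_reduce
      split_ifs <;> simp
    · intro k
      positivity
    · intro t
      unfold pre
      have h : ⌊(2 : ℝ) ^ K * Int.fract t⌋ < (b : ℤ) := by
        rw [Int.floor_lt, hb]
        push_cast
        have := Int.fract_lt_one t
        have h2 : (0 : ℝ) < 2 ^ K := by positivity
        nlinarith
      rw [if_pos h, sum_range_succ', sum_eq_zero]
      · simp [hf]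
      · intro k _
        beta_reduce
        rw [if_neg (by omega), zero_mul]

section

variable {s K N : ℕ} {y : ℕ → Fin s → ℝ} {E : ℝ}

/-- the product of the Haar functions `p j = (k, i)` -/
noncomputable def HF (p : Fin s → ℕ × ℕ) (v : Fin s → ℝ) : ℝ := ∏ j, hf (p j).1 (p j).2 (v j)

/-- Dyadic boxes at the origin. -/
theorem dyadic_box (hE : 0 ≤ E)
    (h : ∀ p : Fin s → ℕ × ℕ, (∀ j, (p j).1 ≤ K ∧ (p j).2 < 2 ^ ((p j).1 - 1)) →
      (∃ j, (p j).1 ≠ 0) → |∑ n ∈ range N, HF p (y n)| ≤ E)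
    (b : Fin s → ℕ) (hb : ∀ j, b j ≤ 2 ^ K) :
    |∑ n ∈ range N, ∏ j, pre K (b j) (y n j) - N * ∏ j, ((b j : ℝ) / 2 ^ K)| ≤ (K + 1) ^ s * E := by
  classical
  choose c i hc0 hc1 hi he using fun j => expand_pre K (b j) (hb j)
  have h1 : ∀ n, ∏ j, pre K (b j) (y n j) =
      ∑ p ∈ Fintype.piFinset fun _ : Fin s => range (K + 1),
        (∏ j, c j (p j)) * HF (fun j => (p j, i j (p j))) (y n) := by
    intro n
    simp_rw [he]
    rw [Finset.prod_univ_sum]
    refine sum_congr rfl fun p _ => ?_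
    rw [prod_mul_distrib]
    rfl
  simp_rw [h1]
  rw [sum_comm]
  simp_rw [← mul_sum]
  have hz : (fun _ => 0 : Fin s → ℕ) ∈ Fintype.piFinset fun _ : Fin s => range (K + 1) := by
    rw [Fintype.mem_piFinset]
    intro j
    rw [mem_range]
    omega
  rw [← add_sum_erase _ _ hz]
  have h2 : (∏ j, c j 0) * ∑ n ∈ range N, HF (fun j : Fin s => (0, i j 0)) (y n) =
      N * ∏ j, ((b j : ℝ) / 2 ^ K) := by
    have h3 : ∀ n, HF (fun j : Fin s => (0, i j 0)) (y n) = 1 := fun n => by simp [HF, hf]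
    simp_rw [h3, hc0]
    rw [sum_const, card_range, nsmul_eq_mul, mul_one, mul_comm]
  rw [h2, add_sub_cancel_left]
  refine (abs_sum_le_sum_abs _ _).trans ?_
  have h4 : ∀ p ∈ (Fintype.piFinset fun _ : Fin s => range (K + 1)).erase (fun _ => 0),
      |(∏ j, c j (p j)) * ∑ n ∈ range N, HF (fun j => (p j, i j (p j))) (y n)| ≤ E := by
    intro p hp
    rw [mem_erase, Fintype.mem_piFinset] at hp
    obtain ⟨hp0, hp1⟩ := hp
    rw [abs_mul]
    have h5 : |∏ j, c j (p j)| ≤ 1 := by
      rw [abs_prod]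
      exact prod_le_one (fun j _ => abs_nonneg _) fun j _ => hc1 j (p j)
    have h6 := h (fun j => (p j, i j (p j)))
      (fun j => ⟨by have := mem_range.1 (hp1 j); omega, hi j (p j)⟩) (by
        by_contra hcon
        push Not at hcon
        exact hp0 (funext hcon))
    calc _ ≤ 1 * E := mul_le_mul h5 h6 (abs_nonneg _) zero_le_one
      _ = E := one_mul E
  refine (sum_le_sum h4).trans ?_
  rw [sum_const, nsmul_eq_mul]
  refine mul_le_mul_of_nonneg_right ?_ hE
  have h7 : ((Fintype.piFinset fun _ : Fin s => range (K + 1)).erase (fun _ => 0)).card ≤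
      (K + 1) ^ s := by
    refine card_erase_le.trans ?_
    rw [Fintype.card_piFinset]
    simp
  exact_mod_cast h7

/-- products of numbers in the unit interval -/
theorem prod_sub_le (u v : Fin s → ℝ) (ε : ℝ) (hv : ∀ j, 0 ≤ v j) (hu : ∀ j, u j ≤ 1)
    (hvu : ∀ j, v j ≤ u j) (h : ∀ j, u j - v j ≤ ε) : ∏ j, u j - ∏ j, v j ≤ s * ε := by
  have key : ∀ t : Finset (Fin s), ∏ j ∈ t, u j - ∏ j ∈ t, v j ≤ t.card * ε := by
    classical
    intro t
    induction t using Finset.induction_on with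
    | empty => simp
    | insert a t ha ih =>
      rw [prod_insert ha, prod_insert ha, card_insert_of_notMem ha]
      have h1 : 0 ≤ ∏ j ∈ t, v j := prod_nonneg fun j _ => hv j
      have h2 : ∏ j ∈ t, v j ≤ 1 := prod_le_one (fun j _ => hv j) fun j _ => (hvu j).trans (hu j)
      have h3 : ∏ j ∈ t, v j ≤ ∏ j ∈ t, u j := prod_le_prod (fun j _ => hv j) fun j _ => hvu j
      have h4 := hv a
      have h5 := hu a
      have h6 := hvu a
      have h7 := h a
      push_cast
      have e : u a * ∏ j ∈ t, u j - v a * ∏ j ∈ t, v j =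
        u a * (∏ j ∈ t, u j - ∏ j ∈ t, v j) + (u a - v a) * ∏ j ∈ t, v j := by ring
      rw [e]
      have h8 : u a * (∏ j ∈ t, u j - ∏ j ∈ t, v j) ≤ 1 * (∏ j ∈ t, u j - ∏ j ∈ t, v j) :=
        mul_le_mul_of_nonneg_right h5 (by linarith)
      have h9 : (u a - v a) * ∏ j ∈ t, v j ≤ (u a - v a) * 1 :=
        mul_le_mul_of_nonneg_left h2 (by linarith)
      linarith
  have := key univ
  rwa [card_univ, Fintype.card_fin] at this

/-- the indicator of `[0, β)` mod 1 -/
noncomputable def prr (β t : ℝ) : ℝ := if Int.fract t < β then 1 else 0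

theorem prr_mono {β β' : ℝ} (h : β ≤ β') (t : ℝ) : prr β t ≤ prr β' t := by
  unfold prr
  split_ifs with h1 h2
  · exact le_rfl
  · exact absurd (h1.trans_le h) h2
  · exact zero_le_one
  · exact le_rfl

theorem prr_nonneg (β t : ℝ) : 0 ≤ prr β t := by
  unfold prr
  split_ifs <;> simp

theorem pre_eq (K b : ℕ) (t : ℝ) : pre K b t = prr (b / 2 ^ K) t := by
  unfold pre prr
  congr 1
  apply propext
  rw [Int.floor_lt, lt_div_iff₀ (by positivity), mul_comm]
  push_cast
  rfl

/-- Boxes at the origin. -/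
theorem origin_box (hE : 0 ≤ E)
    (h : ∀ p : Fin s → ℕ × ℕ, (∀ j, (p j).1 ≤ K ∧ (p j).2 < 2 ^ ((p j).1 - 1)) →
      (∃ j, (p j).1 ≠ 0) → |∑ n ∈ range N, HF p (y n)| ≤ E)
    (β : Fin s → ℝ) (h0 : ∀ j, 0 ≤ β j) (h1 : ∀ j, β j ≤ 1) :
    |∑ n ∈ range N, ∏ j, prr (β j) (y n j) - N * ∏ j, β j| ≤
      (K + 1) ^ s * E + s * (N / 2 ^ K) := by
  have hK : (0 : ℝ) < 2 ^ K := by positivity
  -- the lower and the upper dyadic box
  set b : Fin s → ℕ := fun j => ⌊(2 : ℝ) ^ K * β j⌋₊ with hb
  set b' : Fin s → ℕ := fun j => min (b j + 1) (2 ^ K) with hb'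
  have hpos : ∀ j, 0 ≤ (2 : ℝ) ^ K * β j := fun j => mul_nonneg hK.le (h0 j)
  have e1 : ∀ j, (b j : ℝ) / 2 ^ K ≤ β j := by
    intro j
    rw [div_le_iff₀ hK, mul_comm]
    exact Nat.floor_le (hpos j)
  have e2 : ∀ j, β j ≤ (b' j : ℝ) / 2 ^ K := by
    intro j
    rw [le_div_iff₀ hK, mul_comm]
    show (2 : ℝ) ^ K * β j ≤ ((min (b j + 1) (2 ^ K) : ℕ) : ℝ)
    push_cast
    refine le_min ?_ ?_
    · exact (Nat.lt_floor_add_one _).le
    · have := h1 j
      nlinarith
  have e3 : ∀ j, b j ≤ 2 ^ K := by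
    intro j
    have h2 : (2 : ℝ) ^ K * β j ≤ ((2 ^ K : ℕ) : ℝ) := by
      push_cast
      have := h1 j
      nlinarith
    have h3 : (b j : ℝ) ≤ ((2 ^ K : ℕ) : ℝ) := (Nat.floor_le (hpos j)).trans h2
    exact Nat.cast_le.1 h3
  have e4 : ∀ j, b' j ≤ 2 ^ K := fun j => min_le_right _ _
  have e5 : ∀ j, (b' j : ℝ) / 2 ^ K - (b j : ℝ) / 2 ^ K ≤ 1 / 2 ^ K := by
    intro j
    rw [← sub_div]
    refine div_le_div_of_nonneg_right ?_ hK.le
    have h2 : (b' j : ℝ) ≤ (b j : ℝ) + 1 := by
      have : b' j ≤ b j + 1 := min_le_left _ _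
      exact_mod_cast this
    linarith
  have e6 : ∏ j, (b' j : ℝ) / 2 ^ K - ∏ j, (b j : ℝ) / 2 ^ K ≤ s * (1 / 2 ^ K) := by
    refine prod_sub_le _ _ _ (fun j => by positivity) (fun j => ?_)
      (fun j => (e1 j).trans (e2 j)) e5
    rw [div_le_one hK]
    exact_mod_cast e4 j
  have f1 := abs_le.1 (dyadic_box (K := K) hE h b e3)
  have f2 := abs_le.1 (dyadic_box (K := K) hE h b' e4)
  simp_rw [pre_eq] at f1 f2
  have g1 : ∑ n ∈ range N, ∏ j, prr ((b j : ℝ) / 2 ^ K) (y n j) ≤
      ∑ n ∈ range N, ∏ j, prr (β j) (y n j) :=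
    sum_le_sum fun n _ => prod_le_prod (fun j _ => prr_nonneg _ _) fun j _ => prr_mono (e1 j) _
  have g2 : ∑ n ∈ range N, ∏ j, prr (β j) (y n j) ≤
      ∑ n ∈ range N, ∏ j, prr ((b' j : ℝ) / 2 ^ K) (y n j) :=
    sum_le_sum fun n _ => prod_le_prod (fun j _ => prr_nonneg _ _) fun j _ => prr_mono (e2 j) _
  have g3 : ∏ j, (b j : ℝ) / 2 ^ K ≤ ∏ j, β j :=
    prod_le_prod (fun j _ => by positivity) fun j _ => e1 j
  have g4 : ∏ j, β j ≤ ∏ j, (b' j : ℝ) / 2 ^ K :=
    prod_le_prod (fun j _ => h0 j) fun j _ => e2 j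
  have hN : (0 : ℝ) ≤ N := Nat.cast_nonneg _
  have g5 := mul_le_mul_of_nonneg_left g3 hN
  have g6 := mul_le_mul_of_nonneg_left g4 hN
  have g7 := mul_le_mul_of_nonneg_left e6 hN
  have g8 : (N : ℝ) * (s * (1 / 2 ^ K)) = s * (N / 2 ^ K) := by ring
  rw [g8] at g7
  rw [abs_le]
  constructor
  · nlinarith [f1.1]
  · nlinarith [f2.2]

/-- **Boxes.** -/
theorem box (hE : 0 ≤ E)
    (h : ∀ p : Fin s → ℕ × ℕ, (∀ j, (p j).1 ≤ K ∧ (p j).2 < 2 ^ ((p j).1 - 1)) →
      (∃ j, (p j).1 ≠ 0) → |∑ n ∈ range N, HF p (y n)| ≤ E)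
    (α β : Fin s → ℝ) (h0 : ∀ j, 0 ≤ α j) (h1 : ∀ j, α j ≤ β j) (h2 : ∀ j, β j ≤ 1) :
    |(((range N).filter fun n => ∀ j, α j ≤ Int.fract (y n j) ∧ Int.fract (y n j) < β j).card : ℝ) -
      N * ∏ j, (β j - α j)| ≤ 2 ^ s * ((K + 1) ^ s * E + s * (N / 2 ^ K)) := by
  classical
  -- inclusion and exclusion
  have e1 : ∀ (j : Fin s) (t : ℝ), (if α j ≤ Int.fract t ∧ Int.fract t < β j then (1 : ℝ) else 0) =
      prr (β j) t - prr (α j) t := by
    intro j t
    unfold prr
    have := h1 j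
    by_cases h3 : Int.fract t < α j
    · rw [if_neg (fun h => absurd h.1 (not_le.2 h3)), if_pos (h3.trans_le this), if_pos h3, sub_self]
    · rw [if_neg h3, sub_zero]
      congr 1
      apply propext
      exact ⟨fun h => h.2, fun h => ⟨not_lt.1 h3, h⟩⟩
  have e2 : (((range N).filter fun n =>
      ∀ j, α j ≤ Int.fract (y n j) ∧ Int.fract (y n j) < β j).card : ℝ) =
      ∑ n ∈ range N, ∏ j, (prr (β j) (y n j) - prr (α j) (y n j)) := by
    rw [card_eq_sum_ones, Nat.cast_sum, sum_filter]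
    refine sum_congr rfl fun n _ => ?_
    simp_rw [← e1]
    by_cases h3 : ∀ j, α j ≤ Int.fract (y n j) ∧ Int.fract (y n j) < β j
    · rw [if_pos h3, Nat.cast_one]
      exact (prod_eq_one fun j _ => if_pos (h3 j)).symm
    · rw [if_neg h3]
      push Not at h3
      obtain ⟨j, hj⟩ := h3
      exact (prod_eq_zero (mem_univ j) (if_neg fun h4 => absurd h4.2 (not_lt.2 (hj h4.1)))).symm
  -- the choices
  let w : (Fin s → Bool) → Fin s → ℝ := fun q j => if q j then β j else α j
  let sg : (Fin s → Bool) → ℝ := fun q => ∏ j, if q j then (1 : ℝ) else -1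
  have e3 : ∀ f : Fin s → ℝ → ℝ, ∏ j, (f j (β j) - f j (α j)) =
      ∑ q : Fin s → Bool, sg q * ∏ j, f j (w q j) := by
    intro f
    have h3 : ∀ j, f j (β j) - f j (α j) =
        ∑ a : Bool, (if a then (1 : ℝ) else -1) * f j (if a then β j else α j) := by
      intro j
      rw [Fintype.sum_bool]
      simp
      ring
    simp_rw [h3]
    rw [Finset.prod_univ_sum, Fintype.piFinset_univ]
    refine sum_congr rfl fun q _ => ?_
    rw [prod_mul_distrib]
  have e4 : ∑ n ∈ range N, ∏ j, (prr (β j) (y n j) - prr (α j) (y n j)) =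
      ∑ q : Fin s → Bool, sg q * ∑ n ∈ range N, ∏ j, prr (w q j) (y n j) := by
    simp_rw [fun n => e3 fun j x => prr x (y n j)]
    rw [sum_comm]
    simp_rw [← mul_sum]
  have e5 : ∏ j, (β j - α j) = ∑ q : Fin s → Bool, sg q * ∏ j, w q j := e3 fun _ x => x
  rw [e2, e4, e5, mul_sum, ← sum_sub_distrib]
  have e6 : ∀ q ∈ (univ : Finset (Fin s → Bool)),
      |sg q * ∑ n ∈ range N, ∏ j, prr (w q j) (y n j) - N * (sg q * ∏ j, w q j)| ≤
        (K + 1) ^ s * E + s * (N / 2 ^ K) := by
    intro q _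
    have h3 : |sg q| = 1 := by
      simp only [sg]
      rw [abs_prod]
      refine prod_eq_one fun j _ => ?_
      split_ifs <;> simp
    have h4 : sg q * ∑ n ∈ range N, ∏ j, prr (w q j) (y n j) - N * (sg q * ∏ j, w q j) =
        sg q * (∑ n ∈ range N, ∏ j, prr (w q j) (y n j) - N * ∏ j, w q j) := by ring
    rw [h4, abs_mul, h3, one_mul]
    refine origin_box hE h _ (fun j => ?_) fun j => ?_
    · simp only [w]
      split_ifs
      · exact (h0 j).trans (h1 j)
      · exact h0 j
    · simp only [w]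
      split_ifs
      · exact h2 j
      · exact (h1 j).trans (h2 j)
  refine (abs_sum_le_sum_abs _ _).trans ((sum_le_sum e6).trans ?_)
  rw [sum_const, card_univ, nsmul_eq_mul]
  simp

end

end Pool.Agent.Helper94.LD6
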